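import Pool.Agent.Helper77.OF4.Main
import Pool.Agent.Helper64.OF.M_EUP

/-!
# Triangle-free plane graphs with at most four odd faces
-/

set_option autoImplicit false

namespace Pool.Agent.Results.MP_7a9ddc_co.AtMostFourOddFaces

open Equiv Equiv.Perm

variable {V : Type}

/-- A rotation system of the simple graph `G`: a permutation `r` of the darts (oriented edges) which
permutes the darts starting at every vertex cyclically. -/
structure Rotation (G : SimpleGraph V) where
  /-- the next dart around the same vertex -/
  r : Perm G.Dart
  fst_r : ∀ d, (r d).fst = d.fst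
  trans : ∀ d e : G.Dart, d.fst = e.fst → r.SameCycle d e

namespace Rotation

variable {G : SimpleGraph V} (ρ : Rotation G)

/-- The face permutation: from the dart `(a, b)` go to the dart which follows `(b, a)` around `b`. -/
def face : Perm G.Dart := ρ.r * SimpleGraph.Dart.symm_involutive.toPerm

/-- the faces of the embedding are the cycles of the face permutation -/
abbrev Face : Type := Quotient (SameCycle.setoid ρ.face)

/-- the length of the face of the dart `d`: the number of darts of this cycle -/
noncomputable def faceLength (d : G.Dart) : ℕ := Function.minimalPeriod ρ.face d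

/-- the faces of odd length -/
def oddFaces : Set ρ.Face := {c | ∃ d : G.Dart, Quotient.mk _ d = c ∧ Odd (ρ.faceLength d)}

/-- The rotation system describes an embedding of the (connected) graph in the plane (sphere), by
Euler's formula: number of vertices - number of edges + number of faces = 2. -/
def IsPlane [Fintype V] [DecidableEq V] [DecidableRel G.Adj] : Prop :=
  (Fintype.card V : ℤ) - (G.edgeFinset.card : ℤ) + (Nat.card ρ.Face : ℤ) = 2

end Rotation

/-- `G` is `{1,2}`-choosable: it has a proper colouring from any lists which contain exactly one colour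
of a set `A` and exactly two colours outside `A`. -/
def IsOneTwoChoosable (G : SimpleGraph V) : Prop :=
  ∀ (L : V → Finset ℕ) (A : Finset ℕ), (∀ v, (L v ∩ A).card = 1 ∧ (L v \ A).card = 2) →
    ∃ c : V → ℕ, (∀ v, c v ∈ L v) ∧ ∀ u v, G.Adj u v → c u ≠ c v

/-- **Every connected triangle-free plane graph with at most four faces of odd length is
`{1,2}`-choosable.** -/
theorem result (V : Type) [Fintype V] [DecidableEq V] (G : SimpleGraph V) [DecidableRel G.Adj]
    (hconn : G.Connected) (htf : G.CliqueFree 3) (ρ : Rotation G) (hplane : ρ.IsPlane)
    (hodd : ρ.oddFaces.ncard ≤ 4) : IsOneTwoChoosable G := by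
  classical
  let R : Pool.Agent.Helper35.PM.Rot G :=
    { r := ρ.r
      fst_r := ρ.fst_r
      trans := ρ.trans
      pl := Pool.Agent.Helper64.OF.hEUP V G ρ.r ρ.fst_r ρ.trans hconn (by
        have h := hplane
        unfold Rotation.IsPlane at h
        exact h) }
  have hTF : Pool.Agent.Helper35.PM.TF G := by
    intro a b c hab hbc hac
    apply htf {a, b, c}
    rw [SimpleGraph.is3Clique_triple_iff]
    exact ⟨hab, hac, hbc⟩
  have hfin : ρ.oddFaces.Finite := Set.toFinite _
  let O : Finset G.Dart := hfin.toFinset.image Quotient.out
  have hO : Pool.Agent.Helper77.OF4.OddO R.φ 4 O := by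
    refine ⟨?_, ?_⟩
    · refine (Finset.card_image_le).trans ?_
      rw [← Set.ncard_eq_toFinset_card _ hfin]
      exact hodd
    · intro d hd
      refine ⟨Quotient.out (Quotient.mk (SameCycle.setoid ρ.face) d), ?_, ?_⟩
      · refine Finset.mem_image_of_mem _ ?_
        rw [Set.Finite.mem_toFinset]
        exact ⟨d, rfl, hd⟩
      · exact Quotient.mk_out (s := SameCycle.setoid ρ.face) d
  intro L A hL
  exact Pool.Agent.Helper77.OF4.stFi V G R O hconn hTF hO L A hL

end Pool.Agent.Results.MP_7a9ddc_co.AtMostFourOddFaces
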