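import Pool.Agent.Helper77.HY.Main

/-!
# Hybrid decompositions of triangle-free planar graphs
-/

set_option autoImplicit false

namespace Pool.Agent.Results.MP_7a9ddc_co.HybridDecomposition

variable {V : Type}

/-- `G` can be drawn in the plane without crossings (the formulation of the frozen statement): the
vertices are different points of the plane, every edge is a simple arc between its ends, which does
not pass through other vertices, and different edges have no common inner point. -/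
def IsPlanar (G : SimpleGraph V) : Prop :=
  ∃ (p : V → ℝ × ℝ) (γ : V → V → ℝ → ℝ × ℝ), Function.Injective p ∧
    (∀ u v, G.Adj u v →
      ContinuousOn (γ u v) (Set.Icc 0 1) ∧ Set.InjOn (γ u v) (Set.Icc 0 1) ∧
      γ u v 0 = p u ∧ γ u v 1 = p v ∧
      ∀ t ∈ Set.Ioo (0:ℝ) 1, ∀ w, γ u v t ≠ p w) ∧
    (∀ u v x y, G.Adj u v → G.Adj x y → s(u, v) ≠ s(x, y) →
      ∀ a ∈ Set.Ioo (0:ℝ) 1, ∀ b ∈ Set.Ioo (0:ℝ) 1, γ u v a ≠ γ x y b)

/-- `G` is `{1,2}`-choosable: it has a proper colouring from any lists which contain exactly one colour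
of a set `A` and exactly two colours outside `A`. -/
def IsOneTwoChoosable (G : SimpleGraph V) : Prop :=
  ∀ (L : V → Finset ℕ) (A : Finset ℕ), (∀ v, (L v ∩ A).card = 1 ∧ (L v \ A).card = 2) →
    ∃ c : V → ℕ, (∀ v, c v ∈ L v) ∧ ∀ u v, G.Adj u v → c u ≠ c v

/-- the subgraph `G[F]` is 2-choosable (for instance a forest) -/
def TwoChoosableOn (G : SimpleGraph V) (F : Set V) : Prop :=
  ∀ M : V → Finset ℕ, (∀ v ∈ F, (M v).card = 2) →
    ∃ c : V → ℕ, (∀ v ∈ F, c v ∈ M v) ∧ ∀ u ∈ F, ∀ v ∈ F, G.Adj u v → c u ≠ c v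

/-- the edges of `G[K \ S]` both ends of which have a neighbour in `I` -/
def badEdges (G : SimpleGraph V) (I K S : Set V) : Set (Sym2 V) :=
  {e | e ∈ G.edgeSet ∧ ∀ u ∈ e, u ∈ K \ S ∧ ∃ x ∈ I, G.Adj u x}

/-- A good piece `K` (relative to `I`): there are a finite set `S ⊆ K` and a finite set `C` of pairwise
disjoint sets `Q` outside `K` which induce connected subgraphs, such that `G[K \ S]` is bipartite, all
neighbours in `I` of vertices of `K \ S` lie in the union of the sets `Q ∈ C`, and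
`2 (|S| + |C|)` plus the number of bad edges is at most four. -/
def GoodPiece (G : SimpleGraph V) (I K : Set V) : Prop :=
  ∃ (S : Finset V) (C : Finset (Set V)),
    (S : Set V) ⊆ K ∧ (G.induce (K \ (S : Set V))).Colorable 2 ∧
    (∀ Q ∈ C, (G.induce Q).Connected ∧ Disjoint Q K) ∧
    (∀ Q ∈ C, ∀ Q' ∈ C, Q ≠ Q' → Disjoint Q Q') ∧
    (∀ u ∈ K \ (S : Set V), ∀ x ∈ I, G.Adj u x → ∃ Q ∈ C, x ∈ Q) ∧
    2 * (S.card + C.card) + (badEdges G I K S).ncard ≤ 4

/-- **Hybrid decompositions.** Let `G` be a finite triangle-free planar graph, `I` an independent set,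
`F` a set disjoint from `I` such that `G[F]` is 2-choosable and no vertex of `F` is adjacent to a vertex
outside `I ∪ F`, and let `κ` be a labelling of the vertices such that adjacent vertices outside
`I ∪ F` have the same label. If for every label `i` the set of the vertices with label `i` outside
`I ∪ F` is a good piece, then `G` is `{1,2}`-choosable. -/
theorem result (V : Type) [Fintype V] (G : SimpleGraph V) (htf : G.CliqueFree 3)
    (hplanar : IsPlanar G) (I F : Set V) (ι : Type) (κ : V → ι)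
    (hI : ∀ a ∈ I, ∀ b ∈ I, ¬ G.Adj a b) (hIF : Disjoint I F) (hF : TwoChoosableOn G F)
    (hFK : ∀ u ∈ F, ∀ v, v ∉ I ∪ F → ¬ G.Adj u v)
    (hκ : ∀ u v, u ∉ I ∪ F → v ∉ I ∪ F → G.Adj u v → κ u = κ v)
    (hK : ∀ i, GoodPiece G I {v | v ∉ I ∪ F ∧ κ v = i}) : IsOneTwoChoosable G := by
  have hgm : Pool.Agent.Helper16.OddPack.GridMinor G :=
    Pool.Agent.Helper16.OddPack.gridMinor_of_topPlanar V G
      (Pool.Agent.Helper35.PM.stTop1 V G hplanar)
  have hp : Pool.Agent.Helper35.PM.Planar G := Pool.Agent.Helper35.PM.stTop2 V G hgm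
  have hTF : Pool.Agent.Helper35.PM.TF G := by
    intro a b c hab hbc hac
    classical
    apply htf {a, b, c}
    rw [SimpleGraph.is3Clique_triple_iff]
    exact ⟨hab, hac, hbc⟩
  have hset : ∀ i, {v | v ∉ I ∪ F ∧ κ v = i} = {v | v ∉ I ∧ v ∉ F ∧ κ v = i} := by
    intro i
    ext v
    simp only [Set.mem_setOf_eq, Set.mem_union, not_or, and_assoc]
  exact Pool.Agent.Helper77.HY.stAsm V G I F ι κ hp hTF hI hF hIF
    (fun u hu v h1 h2 => hFK u hu v (by simp [h1, h2]))
    (fun u v h1 h2 h3 h4 h => hκ u v (by simp [h1, h2]) (by simp [h3, h4]) h)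
    (fun i => by
      rw [← hset i]
      exact hK i)

end Pool.Agent.Results.MP_7a9ddc_co.HybridDecomposition
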