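import Pool.Agent.Helper77.SO.Main
import Pool.Agent.Helper64.OF.M_EUP

/-!
# Triangle-free plane graphs in which no short cycle separates two odd faces
-/

set_option autoImplicit false

namespace Pool.Agent.Results.MP_7a9ddc_co.SeparatedOddFaces

open Equiv Equiv.Perm

variable {V : Type}

/-- A rotation system of the simple graph `G`: a permutation `r` of the darts (oriented edges) which
permutes the darts starting at every vertex cyclically. -/
structure Rotation (G : SimpleGraph V) where
  /-- the next dart around the same vertex -/
  r : Perm G.Dart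
  fst_r : ∀ d, (r d).fst = d.fst
  trans : ∀ d e : G.Dart, d.fst = e.fst → r.SameCycle d e

namespace Rotation

variable {G : SimpleGraph V} (ρ : Rotation G)

/-- The face permutation: from the dart `(a, b)` go to the dart which follows `(b, a)` around `b`.
The faces of the embedding are its cycles. -/
def face : Perm G.Dart := ρ.r * SimpleGraph.Dart.symm_involutive.toPerm

/-- the length of the face of the dart `d`: the number of darts of this cycle -/
noncomputable def faceLength (d : G.Dart) : ℕ := Function.minimalPeriod ρ.face d

/-- The rotation system describes an embedding of the (connected) graph in the plane (sphere), by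
Euler's formula: number of vertices - number of edges + number of faces = 2. -/
def IsPlane [Fintype V] [DecidableEq V] [DecidableRel G.Adj] : Prop :=
  (Fintype.card V : ℤ) - (G.edgeFinset.card : ℤ) +
    (Nat.card (Quotient (SameCycle.setoid ρ.face)) : ℤ) = 2

/-- The cycle `c` separates two faces of odd length: there is a 2-colouring `y` of the faces for which
the two faces at an edge have different colours exactly if the edge is an edge of `c`, and two faces of
odd length have different colours. -/
def SeparatesOddFaces {v : V} (c : G.Walk v v) : Prop :=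
  ∃ y : G.Dart → ZMod 2, (∀ a, y (ρ.face a) = y a) ∧
    (∀ a : G.Dart, y a.symm ≠ y a ↔ a.edge ∈ c.edges) ∧
    ∃ d e : G.Dart, Odd (ρ.faceLength d) ∧ Odd (ρ.faceLength e) ∧ y d ≠ y e

end Rotation

/-- `G` is `{1,2}`-choosable: it has a proper colouring from any lists which contain exactly one colour
of a set `A` and exactly two colours outside `A`. -/
def IsOneTwoChoosable (G : SimpleGraph V) : Prop :=
  ∀ (L : V → Finset ℕ) (A : Finset ℕ), (∀ v, (L v ∩ A).card = 1 ∧ (L v \ A).card = 2) →
    ∃ c : V → ℕ, (∀ v, c v ∈ L v) ∧ ∀ u v, G.Adj u v → c u ≠ c v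

/-- **Every connected triangle-free plane graph in which all cycles separating two odd faces have
length at least ten is `{1,2}`-choosable.** -/
theorem result (V : Type) [Fintype V] [DecidableEq V] (G : SimpleGraph V) [DecidableRel G.Adj]
    (hconn : G.Connected) (htf : G.CliqueFree 3) (ρ : Rotation G) (hplane : ρ.IsPlane)
    (hsep : ∀ (v : V) (c : G.Walk v v), c.IsCycle → ρ.SeparatesOddFaces c → 10 ≤ c.length) :
    IsOneTwoChoosable G := by
  classical
  let R : Pool.Agent.Helper35.PM.Rot G :=
    { r := ρ.r
      fst_r := ρ.fst_r
      trans := ρ.trans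
      pl := Pool.Agent.Helper64.OF.hEUP V G ρ.r ρ.fst_r ρ.trans hconn (by
        have h := hplane
        unfold Rotation.IsPlane at h
        exact h) }
  have hTF : Pool.Agent.Helper35.PM.TF G := by
    intro a b c hab hbc hac
    apply htf {a, b, c}
    rw [SimpleGraph.is3Clique_triple_iff]
    exact ⟨hab, hac, hbc⟩
  have hHC : Pool.Agent.Helper77.SO.HC R.map 10 :=
    Pool.Agent.Helper77.SO.stCyc V G R 10 hconn (fun v c hc ⟨y, h1, h2, a, b, h3, h4, h5⟩ =>
      hsep v c hc ⟨y, h1, h2, a, b, h3, h4, h5⟩)
  intro L A hL
  exact Pool.Agent.Helper77.SO.stFi2 10 (by norm_num) (by decide)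
    Pool.Agent.Helper77.SO.stF10 V G R hconn hTF hHC L A hL

end Pool.Agent.Results.MP_7a9ddc_co.SeparatedOddFaces
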