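import Pool.Agent.Helper77.OC.Main

/-!
# Triangle-free planar graphs with a small odd cycle transversal
-/

set_option autoImplicit false

namespace Pool.Agent.Results.MP_7a9ddc_co.SmallTransversal

variable {V : Type}

/-- `G` can be drawn in the plane without crossings (the formulation of the frozen statement): the
vertices are different points of the plane, every edge is a simple arc between its ends, which does
not pass through other vertices, and different edges have no common inner point. -/
def IsPlanar (G : SimpleGraph V) : Prop :=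
  ∃ (p : V → ℝ × ℝ) (γ : V → V → ℝ → ℝ × ℝ), Function.Injective p ∧
    (∀ u v, G.Adj u v →
      ContinuousOn (γ u v) (Set.Icc 0 1) ∧ Set.InjOn (γ u v) (Set.Icc 0 1) ∧
      γ u v 0 = p u ∧ γ u v 1 = p v ∧
      ∀ t ∈ Set.Ioo (0:ℝ) 1, ∀ w, γ u v t ≠ p w) ∧
    (∀ u v x y, G.Adj u v → G.Adj x y → s(u, v) ≠ s(x, y) →
      ∀ a ∈ Set.Ioo (0:ℝ) 1, ∀ b ∈ Set.Ioo (0:ℝ) 1, γ u v a ≠ γ x y b)

/-- `G` is `{1,2}`-choosable: it has a proper colouring from any lists which contain exactly one colour
of a set `A` and exactly two colours outside `A`. -/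
def IsOneTwoChoosable (G : SimpleGraph V) : Prop :=
  ∀ (L : V → Finset ℕ) (A : Finset ℕ), (∀ v, (L v ∩ A).card = 1 ∧ (L v \ A).card = 2) →
    ∃ c : V → ℕ, (∀ v, c v ∈ L v) ∧ ∀ u v, G.Adj u v → c u ≠ c v

/-- the number of edges of `G[S]` -/
noncomputable def edges (G : SimpleGraph V) (S : Set V) : ℕ :=
  {e : Sym2 V | e ∈ G.edgeSet ∧ ∀ v ∈ e, v ∈ S}.ncard

/-- **Small odd cycle transversals.** Let `G` be a finite triangle-free planar graph and `S` a set of
vertices such that `G - S` is bipartite. Suppose that `S` has at most four vertices, or that `G[S]` is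
`{1,2}`-choosable and has at least `2 |S| - 6` edges, or that `G[S]` is a forest and has at least
`2 |S| - 7` edges (that is, `|S|` plus the number of its components is at most seven). Then `G` is
`{1,2}`-choosable. -/
theorem result (V : Type) [Fintype V] (G : SimpleGraph V) (htf : G.CliqueFree 3)
    (hplanar : IsPlanar G) (S : Finset V) (hbip : (G.induce ((S : Set V)ᶜ)).Colorable 2)
    (hS : S.card ≤ 4 ∨
      (IsOneTwoChoosable (G.induce (S : Set V)) ∧ 2 * S.card ≤ edges G S + 6) ∨
      ((G.induce (S : Set V)).IsAcyclic ∧ 2 * S.card ≤ edges G S + 7)) :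
    IsOneTwoChoosable G := by
  classical
  have hgm : Pool.Agent.Helper16.OddPack.GridMinor G :=
    Pool.Agent.Helper16.OddPack.gridMinor_of_topPlanar V G
      (Pool.Agent.Helper35.PM.stTop1 V G hplanar)
  have hp : Pool.Agent.Helper35.PM.Planar G := Pool.Agent.Helper35.PM.stTop2 V G hgm
  have hTF : Pool.Agent.Helper35.PM.TF G := by
    intro a b c hab hbc hac
    apply htf {a, b, c}
    rw [SimpleGraph.is3Clique_triple_iff]
    exact ⟨hab, hac, hbc⟩
  have he : edges G S = Pool.Agent.Helper77.HY.eN G S := by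
    simp only [edges, Pool.Agent.Helper77.HY.eN, Finset.mem_coe]
  intro L A hL
  refine Pool.Agent.Helper77.OC.stFin V G S hp hTF hbip ?_ L A hL
  rcases hS with h | ⟨h1, h2⟩ | ⟨h1, h2⟩
  · exact Or.inl h
  · refine Or.inr (Or.inl ⟨by rw [← he]; exact h2, fun L' A' hL' => ?_⟩)
    obtain ⟨c, hc1, hc2⟩ := h1 (fun v => L' v.1) A' (fun v => hL' v.1)
    refine ⟨fun v => if h : v ∈ S then c ⟨v, h⟩ else 0, fun v hv => ?_, fun u hu v hv huv => ?_⟩
    · simp only [hv, dif_pos]
      exact hc1 ⟨v, hv⟩
    · simp only [hu, hv, dif_pos]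
      exact hc2 ⟨u, hu⟩ ⟨v, hv⟩ huv
  · refine Or.inr (Or.inr ⟨by rw [← he]; exact h2, ?_⟩)
    exact (Pool.Agent.Helper35.PM.stLeaf V G (S : Set V)).2 h1

end Pool.Agent.Results.MP_7a9ddc_co.SmallTransversal
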